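import Pool.Agent.H67LR.LR

set_option autoImplicit false

/-!
# Property (VRC): basic criteria
-/

namespace Pool.Agent.H67VRC

open Pool.Agent.H67LR

/-- Property (VRC): every cyclic subgroup is a virtual retract. -/
def VRC (G : Type*) [Group G] : Prop := ∀ g : G, VRet (Subgroup.zpowers g)

/-- A homomorphism that is injective on a cyclic subgroup pulls back virtual retractions. -/
theorem vret_of_hom {G G' : Type*} [Group G] [Group G'] (f : G →* G') (g : G)
    (hf : ∀ n : ℤ, f g ^ n = 1 → g ^ n = 1) (h : VRet (Subgroup.zpowers (f g))) :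
    VRet (Subgroup.zpowers g) := by
  obtain ⟨K, hK, hHK, ρ, h1, h2⟩ := h
  have hK2 : (K.comap f).FiniteIndex := by
    refine ⟨?_⟩
    rw [Subgroup.index_comap]
    have h3 : (K.subgroupOf f.range).FiniteIndex := inferInstance
    exact h3.index_ne_zero
  choose e he using fun k : K => Subgroup.mem_zpowers_iff.1 (h1 k)
  have key : ∀ a b : ℤ, f g ^ a = f g ^ b → g ^ a = g ^ b := by
    intro a b hab
    have h3 : f g ^ (a - b) = 1 := by rw [zpow_sub, hab, mul_inv_cancel]
    have h4 := hf _ h3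
    rwa [zpow_sub, mul_inv_eq_one] at h4
  refine ⟨K.comap f, hK2, ?_, ?_⟩
  · rw [Subgroup.zpowers_le]
    exact hHK (Subgroup.mem_zpowers _)
  · refine ⟨{ toFun := fun x => g ^ e ⟨f x, x.2⟩, map_one' := ?_, map_mul' := ?_ }, ?_, ?_⟩
    · have : g ^ e ⟨f ((1 : K.comap f) : G), (1 : K.comap f).2⟩ = g ^ (0 : ℤ) := by
        apply key
        rw [he]
        have h5 : (⟨f ((1 : K.comap f) : G), (1 : K.comap f).2⟩ : K) = 1 := Subtype.ext (by simp)
        rw [h5, map_one, zpow_zero]
      rw [this, zpow_zero]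
    · intro x y
      have : g ^ e ⟨f ((x * y : K.comap f) : G), (x * y).2⟩
          = g ^ (e ⟨f x, x.2⟩ + e ⟨f y, y.2⟩) := by
        apply key
        rw [zpow_add, he, he, he, ← map_mul]
        congr 1
        exact Subtype.ext (by simp)
      rw [this, zpow_add]
    · intro k
      exact ⟨_, rfl⟩
    · rintro h hk ⟨n, rfl⟩
      show g ^ e ⟨f (g ^ n), hk⟩ = g ^ n
      apply key
      rw [he, ← map_zpow]
      exact h2 _ _ ⟨n, by simp⟩

/-- Every subgroup of a finite group is a virtual retract. -/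
theorem vret_of_finite {G : Type*} [Group G] [Finite G] (H : Subgroup G) : VRet H :=
  ⟨H, inferInstance, le_rfl, H.subtype, fun k => k.2, fun _ _ _ => rfl⟩

theorem vret_conj {G : Type*} [Group G] (x g : G)
    (h : VRet (Subgroup.zpowers (x * g * x⁻¹))) : VRet (Subgroup.zpowers g) := by
  refine vret_of_hom (MulAut.conj x).toMonoidHom g ?_ h
  intro n hn
  rw [← map_zpow] at hn
  exact (MulAut.conj x).map_eq_one_iff.1 hn

/-- elements commuting with a finite-dimensional displacement -/
structure Wr (X : Type*) where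
  /-- the permutation -/
  perm : Equiv.Perm X
  /-- the labels (at the source) -/
  lab : X → ℤ

namespace Wr

variable {X : Type*}

@[ext] theorem ext {a b : Wr X} (h1 : ∀ x, a.perm x = b.perm x) (h2 : ∀ x, a.lab x = b.lab x) :
    a = b := by
  cases a; cases b
  congr
  · exact Equiv.ext h1
  · exact funext h2

instance : Mul (Wr X) := ⟨fun a b => ⟨a.perm * b.perm, fun x => a.lab (b.perm x) + b.lab x⟩⟩
instance : One (Wr X) := ⟨⟨1, 0⟩⟩
instance : Inv (Wr X) := ⟨fun a => ⟨a.perm⁻¹, fun x => - a.lab (a.perm⁻¹ x)⟩⟩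

@[simp] theorem mul_perm (a b : Wr X) (x : X) : (a * b).perm x = a.perm (b.perm x) := rfl
@[simp] theorem mul_lab (a b : Wr X) (x : X) : (a * b).lab x = a.lab (b.perm x) + b.lab x := rfl
@[simp] theorem one_perm (x : X) : (1 : Wr X).perm x = x := rfl
@[simp] theorem one_lab (x : X) : (1 : Wr X).lab x = 0 := rfl
@[simp] theorem inv_perm (a : Wr X) (x : X) : (a⁻¹).perm x = a.perm⁻¹ x := rfl
@[simp] theorem inv_lab (a : Wr X) (x : X) : (a⁻¹).lab x = - a.lab (a.perm⁻¹ x) := rfl

instance : Group (Wr X) :=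
  Group.ofLeftAxioms
    (fun a b c => Wr.ext (fun x => by simp) (fun x => by simp [add_assoc]))
    (fun a => Wr.ext (fun x => by simp) (fun x => by simp))
    (fun a => Wr.ext (fun x => by simp) (fun x => by simp))

/-- the permutation part as a homomorphism -/
def toPerm : Wr X →* Equiv.Perm X where
  toFun a := a.perm
  map_one' := rfl
  map_mul' _ _ := rfl

end Wr

/-- The criterion for elements with a nonzero displacement. -/
theorem vret_of_wr {G X : Type*} [Group G] [Finite X] (Φ : G →* Wr X) (g : G) (x0 : X) (M : ℕ)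
    (hM : 0 < M) (hx : (Φ (g ^ M)).perm x0 = x0) (hne : (Φ (g ^ M)).lab x0 ≠ 0) :
    VRet (Subgroup.zpowers g) := by
  have : NeZero M := ⟨hM.ne'⟩
  let o : ZMod M → X := fun j => (Φ (g ^ j.val)).perm x0
  have ho : ∀ n : ℕ, (Φ (g ^ n)).perm x0 = o (n : ZMod M) := by
    intro n
    show _ = (Φ (g ^ (n : ZMod M).val)).perm x0
    rw [ZMod.val_natCast]
    conv_lhs => rw [← Nat.mod_add_div n M]
    rw [pow_add, pow_mul, map_mul, Wr.mul_perm]
    congr 1
    generalize n / M = k
    induction k with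
    | zero => simp
    | succ k ih => rw [pow_succ, map_mul, Wr.mul_perm, hx, ih]
  have hstep : ∀ j, (Φ g).perm (o j) = o (j + 1) := by
    intro j
    have h1 := ho (j.val + 1)
    rw [pow_succ', map_mul, Wr.mul_perm] at h1
    rw [Nat.cast_add, Nat.cast_one, ZMod.natCast_zmod_val] at h1
    exact h1
  let F : G → ℤ := fun k => ∑ j, (Φ k).lab (o j)
  let P : G → Prop := fun k => ∃ i : ZMod M, ∀ j, (Φ k).perm (o j) = o (j + i)
  have P1 : P 1 := ⟨0, fun j => by simp⟩
  have Pmul : ∀ k l, P k → P l → P (k * l) := by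
    rintro k l ⟨i, hi⟩ ⟨i', hi'⟩
    refine ⟨i' + i, fun j => ?_⟩
    rw [map_mul, Wr.mul_perm, hi', hi, add_assoc]
  have Pinv : ∀ k, P k → P k⁻¹ := by
    rintro k ⟨i, hi⟩
    refine ⟨-i, fun j => ?_⟩
    rw [map_inv, Wr.inv_perm, Equiv.Perm.inv_eq_iff_eq, hi]
    congr 1
    abel
  have Fmul : ∀ k l, P l → F (k * l) = F k + F l := by
    rintro k l ⟨i, hi⟩
    show ∑ j, (Φ (k * l)).lab (o j) = _
    simp only [map_mul, Wr.mul_lab, Finset.sum_add_distrib, hi]
    congr 1
    exact Equiv.sum_comp (Equiv.addRight i) (fun j => (Φ k).lab (o j))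
  have F1 : F 1 = 0 := by simp [F]
  have Pg : P g := ⟨1, hstep⟩
  have Ppow : ∀ n : ℕ, P (g ^ n) := by
    intro n
    induction n with
    | zero => simpa using P1
    | succ n ih => rw [pow_succ]; exact Pmul _ _ ih Pg
  have Fpow : ∀ n : ℕ, F (g ^ n) = n * F g := by
    intro n
    induction n with
    | zero => simp [F1]
    | succ n ih =>
      rw [pow_succ, Fmul _ _ Pg, ih]
      push_cast
      ring
  -- nonvanishing
  have hconj : ∀ n : ℕ, (Φ (g ^ M)).lab ((Φ (g ^ n)).perm x0) = (Φ (g ^ M)).lab x0 := by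
    intro n
    have h1 : (Φ (g ^ M * g ^ n)).lab x0 = (Φ (g ^ n * g ^ M)).lab x0 := by
      rw [← pow_add, ← pow_add, add_comm]
    rw [map_mul, map_mul, Wr.mul_lab, Wr.mul_lab, hx] at h1
    linarith
  have hFM : F (g ^ M) = M * (Φ (g ^ M)).lab x0 := by
    show ∑ j : ZMod M, (Φ (g ^ M)).lab ((Φ (g ^ j.val)).perm x0) = _
    simp only [hconj]
    simp
  have hFg : F g ≠ 0 := by
    intro h0
    rw [Fpow, h0, mul_zero] at hFM
    have hM' : (M : ℤ) ≠ 0 := by exact_mod_cast hM.ne'
    exact (mul_ne_zero hM' hne) hFM.symm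
  -- the subgroup
  let K : Subgroup G :=
    { carrier := {k | P k}
      one_mem' := P1
      mul_mem' := fun ha hb => Pmul _ _ ha hb
      inv_mem' := fun ha => Pinv _ ha }
  have hKfi : K.FiniteIndex := by
    have h1 : (Wr.toPerm.comp Φ).ker.FiniteIndex := by
      have : Finite (Equiv.Perm X) := inferInstance
      infer_instance
    refine Subgroup.finiteIndex_of_le (H := (Wr.toPerm.comp Φ).ker) ?_
    intro k hk
    refine ⟨0, fun j => ?_⟩
    have h2 : (Φ k).perm = 1 := hk
    rw [h2]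
    simp
  let Fh : K →* Multiplicative ℤ :=
    { toFun := fun k => Multiplicative.ofAdd (F k)
      map_one' := by
        show Multiplicative.ofAdd (F 1) = 1
        rw [F1]; rfl
      map_mul' := fun k l => by
        show Multiplicative.ofAdd (F (k * l)) = _
        rw [Fmul _ _ l.2]; rfl }
  let r : Multiplicative ℤ →* Multiplicative (ZMod (F g).natAbs) :=
    AddMonoidHom.toMultiplicative (Int.castAddHom (ZMod (F g).natAbs))
  have hfin : ((r.comp Fh).ker).FiniteIndex := by
    have : NeZero (F g).natAbs := ⟨by simpa using hFg⟩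
    have : Finite (Multiplicative (ZMod (F g).natAbs)) := inferInstance
    infer_instance
  let L : Subgroup G := ((r.comp Fh).ker).map K.subtype
  have hL : L.FiniteIndex := by
    refine ⟨?_⟩
    rw [Subgroup.index_map_subtype]
    exact mul_ne_zero hfin.index_ne_zero hKfi.index_ne_zero
  have hLK : ∀ k ∈ L, P k ∧ F g ∣ F k := by
    rintro k ⟨⟨k', hk'⟩, h1, rfl⟩
    refine ⟨hk', ?_⟩
    have h2 : ((F k' : ℤ) : ZMod (F g).natAbs) = 0 := h1
    rw [ZMod.intCast_zmod_eq_zero_iff_dvd] at h2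
    show F g ∣ F k'
    exact Int.natAbs_dvd.1 h2
  refine ⟨L, hL, ?_, ?_⟩
  · rw [Subgroup.zpowers_le]
    refine ⟨⟨g, Pg⟩, ?_, rfl⟩
    show ((F g : ℤ) : ZMod (F g).natAbs) = 0
    rw [ZMod.intCast_zmod_eq_zero_iff_dvd]
    exact Int.natAbs_dvd.2 dvd_rfl
  · refine ⟨{ toFun := fun k => g ^ (F k / F g), map_one' := ?_, map_mul' := ?_ }, ?_, ?_⟩
    · show g ^ (F 1 / F g) = 1
      rw [F1]; simp
    · intro k l
      show g ^ (F ((k : G) * l) / F g) = _
      rw [Fmul _ _ (hLK l l.2).1, Int.add_ediv_of_dvd_left (hLK k k.2).2, zpow_add]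
    · intro k
      exact ⟨_, rfl⟩
    · rintro h hk ⟨n, rfl⟩
      show g ^ (F (g ^ n) / F g) = g ^ n
      have h1 : F (g ^ n) = n * F g := by
        obtain ⟨m, rfl | rfl⟩ := n.eq_nat_or_neg
        · rw [zpow_natCast, Fpow]
        · have h2 := Fmul (g ^ (-(m : ℤ))) (g ^ m) (Ppow m)
          rw [zpow_neg, zpow_natCast, inv_mul_cancel, F1, Fpow] at h2
          rw [zpow_neg, zpow_natCast]
          push_cast
          linarith
      rw [h1, Int.mul_ediv_cancel _ hFg]

end Pool.Agent.H67VRC
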