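import Pool.Agent.H67VRC.Sep

set_option autoImplicit false

/-!
# The construction: an action of the amalgamated product with integer labels
-/

namespace Pool.Agent.H67VRC

open Pool.Agent.H67LR

/-- The amalgamated free product `P *_R Q` of two groups along `i : R → P` and `j : R → Q`: the
quotient of the free product by the normal closure of the elements `i(r) j(r)⁻¹`. -/
abbrev Amalg {P Q R : Type*} [Group P] [Group Q] [Group R] (i : R →* P) (j : R →* Q) : Type _ :=
  Monoid.Coprod P Q ⧸ Subgroup.normalClosure (Set.range fun r : R =>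
    (Monoid.Coprod.inl (i r) : Monoid.Coprod P Q) * (Monoid.Coprod.inr (j r))⁻¹)

namespace Amalg

variable {P Q R : Type*} [Group P] [Group Q] [Group R] (i : R →* P) (j : R →* Q)

/-- the first factor -/
def inl : P →* Amalg i j := (QuotientGroup.mk' _).comp Monoid.Coprod.inl
/-- the second factor -/
def inr : Q →* Amalg i j := (QuotientGroup.mk' _).comp Monoid.Coprod.inr

theorem glue (r : R) : inl i j (i r) = inr i j (j r) := by
  have h : (Monoid.Coprod.inl (i r) : Monoid.Coprod P Q) * (Monoid.Coprod.inr (j r))⁻¹ ∈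
      Subgroup.normalClosure (Set.range fun r : R =>
        (Monoid.Coprod.inl (i r) : Monoid.Coprod P Q) * (Monoid.Coprod.inr (j r))⁻¹) :=
    Subgroup.subset_normalClosure ⟨r, rfl⟩
  have h2 := (QuotientGroup.eq_one_iff _).2 h
  rw [QuotientGroup.mk_mul, QuotientGroup.mk_inv, mul_inv_eq_one] at h2
  exact h2

theorem exists_lift {W : Type*} [Group W] (a : P →* W) (b : Q →* W)
    (hab : ∀ r, a (i r) = b (j r)) :
    ∃ c : Amalg i j →* W, (∀ p, c (inl i j p) = a p) ∧ ∀ q, c (inr i j q) = b q := by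
  refine ⟨QuotientGroup.lift _ (Monoid.Coprod.lift a b) ?_, fun p => ?_, fun q => ?_⟩
  · intro x hx
    have h : Subgroup.normalClosure (Set.range fun r : R =>
        (Monoid.Coprod.inl (i r) : Monoid.Coprod P Q) * (Monoid.Coprod.inr (j r))⁻¹)
        ≤ (Monoid.Coprod.lift a b).ker := by
      apply Subgroup.normalClosure_le_normal
      rintro _ ⟨r, rfl⟩
      show Monoid.Coprod.lift a b _ = 1
      rw [map_mul, map_inv]
      simp [hab r]
    exact h hx
  · show QuotientGroup.lift _ _ _ (QuotientGroup.mk _) = _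
    rw [QuotientGroup.lift_mk]
    simp
  · show QuotientGroup.lift _ _ _ (QuotientGroup.mk _) = _
    rw [QuotientGroup.lift_mk]
    simp

theorem induct {motive : Amalg i j → Prop} (one : motive 1)
    (left : ∀ p x, motive x → motive (inl i j p * x))
    (right : ∀ q x, motive x → motive (inr i j q * x)) (x : Amalg i j) : motive x := by
  induction x using QuotientGroup.induction_on with
  | H x =>
    induction x using Monoid.Coprod.induction_on' with
    | one => exact one
    | inl_mul m x ih => exact left m _ ih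
    | inr_mul m x ih => exact right m _ ih

end Amalg

/-- coordinates on a group relative to a subgroup acting on the left and a normal subgroup -/
structure Half {P R : Type*} [Group P] [Group R] (i : R →* P) (A : Subgroup P) (N : Subgroup R)
    [N.Normal] (T : Type*) where
  /-- first coordinate -/
  κ : P → R ⧸ N
  /-- second coordinate -/
  t : P → T
  /-- representatives -/
  τ : T → P
  κ_left : ∀ r p, κ (i r * p) = QuotientGroup.mk r * κ p
  t_left : ∀ r p, t (i r * p) = t p
  κ_right : ∀ p, ∀ a ∈ A, κ (p * a) = κ p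
  t_right : ∀ p, ∀ a ∈ A, t (p * a) = t p
  dec : ∀ p r, κ p = QuotientGroup.mk r → (i r * τ (t p))⁻¹ * p ∈ A
  t_τ : ∀ x, t (τ x) = x
  κ_τ : ∀ x, κ (τ x) = 1
  base : τ (t 1) = 1

theorem exists_half.{u, v} {P : Type u} {R : Type v} [Group P] [Group R] (i : R →* P)
    (A : Subgroup P) (N : Subgroup R) [N.Normal] (hA : NF A) (hN : ∀ r, r ∈ N ↔ i r ∈ A) :
    ∃ T : Type u, Finite T ∧ Nonempty (Half i A N T) := by
  classical
  have hAn := hA.1
  have hAf := hA.2
  let st : Setoid P :=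
    { r := fun p p' => ∃ r, ∃ a ∈ A, p' = i r * p * a
      iseqv := by
        refine ⟨fun p => ⟨1, 1, A.one_mem, by simp⟩, ?_, ?_⟩
        · rintro p p' ⟨r, a, ha, rfl⟩
          exact ⟨r⁻¹, a⁻¹, A.inv_mem ha, by rw [map_inv]; group⟩
        · rintro p p' p'' ⟨r, a, ha, rfl⟩ ⟨r', a', ha', rfl⟩
          exact ⟨r' * r, a * a', A.mul_mem ha ha', by rw [map_mul]; group⟩ }
  let T := Quotient st
  let τ : T → P := fun x => if x = Quotient.mk st 1 then 1 else x.out
  have hτ : ∀ x, Quotient.mk st (τ x) = x := by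
    intro x
    by_cases hx : x = Quotient.mk st 1
    · simp [τ, hx]
    · simp [τ, hx]
  have h1 : ∀ p : P, ∃ r, ∃ a ∈ A, p = i r * τ (Quotient.mk st p) * a := by
    intro p
    exact Quotient.exact (hτ (Quotient.mk st p))
  choose r a ha hr using h1
  have huniq : ∀ (p : P) (r' : R) (a' : P), a' ∈ A → p = i r' * τ (Quotient.mk st p) * a' →
      (QuotientGroup.mk (r p) : R ⧸ N) = QuotientGroup.mk r' := by
    intro p r' a' ha' he
    rw [QuotientGroup.eq, hN]
    have e : i ((r p)⁻¹ * r') = τ (Quotient.mk st p) * (a p * a'⁻¹)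
        * (τ (Quotient.mk st p))⁻¹ := by
      have h2 := (hr p).symm.trans he
      rw [map_mul, map_inv]
      have h3 : i r' * τ (Quotient.mk st p) = i (r p) * τ (Quotient.mk st p) * a p * a'⁻¹ := by
        rw [h2]; group
      have h4 : i r' = i (r p) * τ (Quotient.mk st p) * a p * a'⁻¹
          * (τ (Quotient.mk st p))⁻¹ := by
        rw [← h3]; group
      rw [h4]; group
    rw [e]
    exact hAn.conj_mem _ (A.mul_mem (ha p) (A.inv_mem ha')) _
  have tleft : ∀ r' p, Quotient.mk st (i r' * p) = Quotient.mk st p := by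
    intro r' p
    exact (Quotient.sound (s := st) ⟨r', 1, A.one_mem, by simp⟩).symm
  have tright : ∀ p, ∀ a' ∈ A, Quotient.mk st (p * a') = Quotient.mk st p := by
    intro p a' ha'
    exact (Quotient.sound (s := st) ⟨1, a', ha', by simp⟩).symm
  refine ⟨T, ?_, ⟨⟨fun p => QuotientGroup.mk (r p), fun p => Quotient.mk st p, τ, ?_, tleft, ?_,
    tright, ?_, hτ, ?_, by simp [τ]⟩⟩⟩
  · refine Finite.of_surjective (α := P ⧸ A) (fun c => Quotient.mk st c.out) ?_
    intro x
    refine ⟨QuotientGroup.mk x.out, ?_⟩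
    obtain ⟨⟨b, hb⟩, h2⟩ := QuotientGroup.mk_out_eq_mul A x.out
    show Quotient.mk st (QuotientGroup.mk x.out : P ⧸ A).out = x
    rw [h2]
    show Quotient.mk st (x.out * b) = x
    rw [tright _ _ hb]
    exact Quotient.out_eq x
  · intro r' p
    rw [← QuotientGroup.mk_mul]
    refine huniq _ _ (a p) (ha p) ?_
    rw [tleft, map_mul]
    conv_lhs => rw [hr p]
    group
  · intro p a' ha'
    refine huniq _ _ (a p * a') (A.mul_mem (ha p) ha') ?_
    rw [tright _ _ ha']
    conv_lhs => rw [hr p]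
    group
  · intro p r' he
    have h2 : (QuotientGroup.mk (r p) : R ⧸ N) = QuotientGroup.mk r' := he
    rw [QuotientGroup.eq, hN] at h2
    have e : (i r' * τ (Quotient.mk st p))⁻¹ * p
        = (τ (Quotient.mk st p))⁻¹ * (i ((r p)⁻¹ * r'))⁻¹ * τ (Quotient.mk st p) * a p := by
      conv_lhs => rw [hr p]
      rw [map_mul, map_inv, tright _ _ (ha p), tleft, hτ]
      group
    show (i r' * τ (Quotient.mk st p))⁻¹ * p ∈ A
    rw [e]
    refine A.mul_mem ?_ (ha p)
    have := hAn.conj_mem _ (A.inv_mem h2) (τ (Quotient.mk st p))⁻¹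
    rwa [inv_inv] at this
  · intro x
    show (QuotientGroup.mk (r (τ x)) : R ⧸ N) = 1
    rw [← QuotientGroup.mk_one]
    refine huniq _ _ 1 A.one_mem ?_
    rw [hτ]
    simp

namespace Half

variable {P R : Type*} [Group P] [Group R] {i : R →* P} {A : Subgroup P} {N : Subgroup R}
    [N.Normal] {T : Type*} (H : Half i A N T)

/-- the section -/
noncomputable def σ (x : (R ⧸ N) × T) : P := i x.1.out * H.τ x.2

theorem κ_σ (x : (R ⧸ N) × T) : H.κ (H.σ x) = x.1 := by
  rw [σ, H.κ_left, H.κ_τ, mul_one]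
  exact QuotientGroup.out_eq' _

theorem t_σ (x : (R ⧸ N) × T) : H.t (H.σ x) = x.2 := by
  rw [σ, H.t_left, H.t_τ]

/-- the coordinates -/
def co (p : P) : (R ⧸ N) × T := (H.κ p, H.t p)

theorem co_σ (x : (R ⧸ N) × T) : H.co (H.σ x) = x := Prod.ext (H.κ_σ x) (H.t_σ x)

theorem σ_co (p : P) : (H.σ (H.co p))⁻¹ * p ∈ A :=
  H.dec p _ (QuotientGroup.out_eq' _).symm

theorem co_right (p a : P) (ha : a ∈ A) : H.co (p * a) = H.co p :=
  Prod.ext (H.κ_right p a ha) (H.t_right p a ha)

/-- the action -/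
noncomputable def act (p : P) (x : (R ⧸ N) × T) : (R ⧸ N) × T := H.co (p * H.σ x)

/-- the `A`-part -/
noncomputable def a (p : P) (x : (R ⧸ N) × T) : P := (H.σ (H.act p x))⁻¹ * (p * H.σ x)

theorem a_mem (p : P) (x : (R ⧸ N) × T) : H.a p x ∈ A := H.σ_co _

theorem act_one (x : (R ⧸ N) × T) : H.act 1 x = x := by rw [act, one_mul, H.co_σ]

theorem act_mul (p q : P) (x : (R ⧸ N) × T) : H.act (p * q) x = H.act p (H.act q x) := by
  have e : p * q * H.σ x = p * H.σ (H.act q x) * H.a q x := by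
    rw [a]; group
  rw [act, e, H.co_right _ _ (H.a_mem q x)]
  rfl

theorem a_mul (p q : P) (x : (R ⧸ N) × T) : H.a (p * q) x = H.a p (H.act q x) * H.a q x := by
  rw [a, a, a, H.act_mul]
  group

theorem act_i (r : R) (x : (R ⧸ N) × T) : H.act (i r) x = (QuotientGroup.mk r * x.1, x.2) := by
  rw [act, co, H.κ_left, H.t_left, H.κ_σ, H.t_σ]

/-- the `N`-part -/
noncomputable def nn (N : Subgroup R) [N.Normal] (r : R) (c : R ⧸ N) : R :=
  ((QuotientGroup.mk r * c : R ⧸ N).out)⁻¹ * (r * c.out)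

theorem nn_mem (r : R) (c : R ⧸ N) : nn N r c ∈ N := by
  rw [nn, ← QuotientGroup.eq]
  rw [QuotientGroup.out_eq', QuotientGroup.mk_mul, QuotientGroup.out_eq']

theorem a_i (r : R) (x : (R ⧸ N) × T) :
    H.a (i r) x = (H.τ x.2)⁻¹ * i (nn N r x.1) * H.τ x.2 := by
  rw [a, act_i, σ, σ, nn]
  simp only [map_mul, map_inv]
  group

theorem act_of_mem [A.Normal] (p : P) (hp : p ∈ A) (x : (R ⧸ N) × T) : H.act p x = x := by
  have e : p * H.σ x = H.σ x * ((H.σ x)⁻¹ * p * H.σ x) := by group
  have h2 : (H.σ x)⁻¹ * p * H.σ x ∈ A := by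
    have := (inferInstance : A.Normal).conj_mem p hp (H.σ x)⁻¹
    rwa [inv_inv] at this
  rw [act, e, H.co_right _ _ h2, H.co_σ]

theorem mem_of_act [A.Normal] (p : P) (x : (R ⧸ N) × T) (h : H.act p x = x) : p ∈ A := by
  have h1 := H.a_mem p x
  rw [a, h] at h1
  have := (inferInstance : A.Normal).conj_mem _ h1 (H.σ x)
  have e : H.σ x * ((H.σ x)⁻¹ * (p * H.σ x)) * (H.σ x)⁻¹ = p := by group
  rwa [e] at this

end Half

section glue

variable {P Q R : Type*} [Group P] [Group Q] [Group R] (i : R →* P) (j : R →* Q)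
  {A : Subgroup P} {B : Subgroup Q} {N : Subgroup R} [N.Normal] {T S : Type*}

/-- additive on a subgroup -/
def Add {P : Type*} [Group P] (A : Subgroup P) (f : P → ℤ) : Prop :=
  ∀ a ∈ A, ∀ b ∈ A, f (a * b) = f a + f b

theorem Add.one {P : Type*} [Group P] {A : Subgroup P} {f : P → ℤ} (hf : Add A f) : f 1 = 0 := by
  have := hf 1 A.one_mem 1 A.one_mem
  rw [mul_one] at this
  omega

theorem Add.inv {P : Type*} [Group P] {A : Subgroup P} {f : P → ℤ} (hf : Add A f) (a : P)
    (ha : a ∈ A) : f a⁻¹ = - f a := by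
  have := hf a⁻¹ (A.inv_mem ha) a ha
  rw [inv_mul_cancel, hf.one] at this
  omega

theorem Add.zpow {P : Type*} [Group P] {A : Subgroup P} {f : P → ℤ} (hf : Add A f) (a : P)
    (ha : a ∈ A) (n : ℤ) : f (a ^ n) = n * f a := by
  induction n using Int.induction_on with
  | zero => simp [hf.one]
  | succ n ih =>
    rw [zpow_add_one, hf _ (A.zpow_mem ha _) _ ha, ih]
    ring
  | pred n ih =>
    rw [zpow_sub_one, hf _ (A.zpow_mem ha _) _ (A.inv_mem ha), ih, hf.inv a ha]
    ring

variable {i j}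

/-- the homomorphism on the first factor -/
noncomputable def homP (H : Half i A N T) (F : S → P → ℤ) (hF : ∀ s, Add A (F s)) :
    P →* Wr ((R ⧸ N) × T × S) where
  toFun p :=
    { perm :=
        { toFun := fun x => ((H.act p (x.1, x.2.1)).1, (H.act p (x.1, x.2.1)).2, x.2.2)
          invFun := fun x => ((H.act p⁻¹ (x.1, x.2.1)).1, (H.act p⁻¹ (x.1, x.2.1)).2, x.2.2)
          left_inv := fun x => by
            simp only [Prod.mk.eta, ← H.act_mul, inv_mul_cancel, H.act_one]
          right_inv := fun x => by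
            simp only [Prod.mk.eta, ← H.act_mul, mul_inv_cancel, H.act_one] }
      lab := fun x => F x.2.2 (H.a p (x.1, x.2.1)) }
  map_one' := by
    refine Wr.ext (fun x => ?_) (fun x => ?_)
    · simp [H.act_one]
    · show F x.2.2 (H.a 1 (x.1, x.2.1)) = 0
      rw [Half.a, H.act_one, one_mul, inv_mul_cancel, (hF _).one]
  map_mul' := by
    intro p q
    refine Wr.ext (fun x => ?_) (fun x => ?_)
    · simp [H.act_mul]
    · show F x.2.2 (H.a (p * q) (x.1, x.2.1)) = F x.2.2 (H.a p _) + F x.2.2 (H.a q (x.1, x.2.1))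
      rw [H.a_mul, hF _ _ (H.a_mem _ _) _ (H.a_mem _ _)]
      rfl

/-- the homomorphism on the second factor -/
noncomputable def homQ (H : Half j B N S) (F : T → Q → ℤ) (hF : ∀ s, Add B (F s)) :
    Q →* Wr ((R ⧸ N) × T × S) where
  toFun p :=
    { perm :=
        { toFun := fun x => ((H.act p (x.1, x.2.2)).1, x.2.1, (H.act p (x.1, x.2.2)).2)
          invFun := fun x => ((H.act p⁻¹ (x.1, x.2.2)).1, x.2.1, (H.act p⁻¹ (x.1, x.2.2)).2)
          left_inv := fun x => by
            simp only [Prod.mk.eta, ← H.act_mul, inv_mul_cancel, H.act_one]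
          right_inv := fun x => by
            simp only [Prod.mk.eta, ← H.act_mul, mul_inv_cancel, H.act_one] }
      lab := fun x => F x.2.1 (H.a p (x.1, x.2.2)) }
  map_one' := by
    refine Wr.ext (fun x => ?_) (fun x => ?_)
    · simp [H.act_one]
    · show F x.2.1 (H.a 1 (x.1, x.2.2)) = 0
      rw [Half.a, H.act_one, one_mul, inv_mul_cancel, (hF _).one]
  map_mul' := by
    intro p q
    refine Wr.ext (fun x => ?_) (fun x => ?_)
    · simp [H.act_mul]
    · show F x.2.1 (H.a (p * q) (x.1, x.2.2)) = F x.2.1 (H.a p _) + F x.2.1 (H.a q (x.1, x.2.2))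
      rw [H.a_mul, hF _ _ (H.a_mem _ _) _ (H.a_mem _ _)]
      rfl

theorem exists_wr (HP : Half i A N T) (HQ : Half j B N S) (F : S → P → ℤ) (hF : ∀ s, Add A (F s))
    (G : T → Q → ℤ) (hG : ∀ t, Add B (G t))
    (hc : ∀ s t, ∀ n ∈ N, F s ((HP.τ t)⁻¹ * i n * HP.τ t) = G t ((HQ.τ s)⁻¹ * j n * HQ.τ s)) :
    ∃ Φ : Amalg i j →* Wr ((R ⧸ N) × T × S), (∀ p, Φ (Amalg.inl i j p) = homP HP F hF p) ∧
      ∀ q, Φ (Amalg.inr i j q) = homQ HQ G hG q := by
  apply Amalg.exists_lift
  intro r
  refine Wr.ext (fun x => ?_) (fun x => ?_)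
  · show ((HP.act (i r) (x.1, x.2.1)).1, (HP.act (i r) (x.1, x.2.1)).2, x.2.2)
      = ((HQ.act (j r) (x.1, x.2.2)).1, x.2.1, (HQ.act (j r) (x.1, x.2.2)).2)
    rw [HP.act_i, HQ.act_i]
  · show F x.2.2 (HP.a (i r) (x.1, x.2.1)) = G x.2.1 (HQ.a (j r) (x.1, x.2.2))
    rw [HP.a_i, HQ.a_i]
    exact hc _ _ _ (Half.nn_mem _ _)

end glue

end Pool.Agent.H67VRC
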