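import Pool.Agent.H67VRC.Constr

set_option autoImplicit false

/-!
# Elements of the factors, and finite quotients
-/

namespace Pool.Agent.H67VRC

open Pool.Agent.H67LR

universe u v w

/-- an element of infinite order of a group with (VRC) is detected by an integer valued map that is
additive on a normal subgroup of finite index -/
theorem exists_func {P : Type*} [Group P] (hP : VRC P) (p : P) (hp : ∀ n : ℤ, p ^ n = 1 → n = 0) :
    ∃ K : Subgroup P, NF K ∧ ∃ f : P → ℤ, Add K f ∧ ∀ m : ℤ, p ^ m ∈ K → f (p ^ m) = m := by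
  classical
  obtain ⟨K, hK, hHK, ρ, h1, h2⟩ := hP p
  choose e he using fun k : K => Subgroup.mem_zpowers_iff.1 (h1 k)
  have hinj : ∀ a b : ℤ, p ^ a = p ^ b → a = b := by
    intro a b hab
    have h4 : p ^ (a - b) = 1 := by rw [zpow_sub, hab, mul_inv_cancel]
    have := hp _ h4
    omega
  have hle := Subgroup.normalCore_le K
  refine ⟨K.normalCore, NF.core hK, fun x => if h : x ∈ K then e ⟨x, h⟩ else 0, ?_, ?_⟩
  · intro a ha b hb
    have ha' := hle ha
    have hb' := hle hb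
    have hab' := K.mul_mem ha' hb'
    simp only [dif_pos ha', dif_pos hb', dif_pos hab']
    apply hinj
    rw [zpow_add, he, he, he, ← map_mul]
    rfl
  · intro m hm
    have hm' := hle hm
    simp only [dif_pos hm']
    apply hinj
    rw [he]
    exact h2 _ _ (Subgroup.zpow_mem_zpowers p m)

section

variable {P : Type u} {Q : Type v} {R : Type w} [Group P] [Group Q] [Group R] (i : R →* P)
  (j : R →* Q)

/-- matching normal subgroups of finite index -/
theorem exists_match (hP : VRC P) (hQ : VRC Q) (hi : Function.Injective i)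
    (hj : Function.Injective j) (z : R) (hz : (Subgroup.zpowers z).FiniteIndex)
    {A0 : Subgroup P} (hA0 : NF A0) {B0 : Subgroup Q} (hB0 : NF B0) :
    ∃ A : Subgroup P, ∃ B : Subgroup Q, ∃ n : ℕ, NF A ∧ NF B ∧ A ≤ A0 ∧ B ≤ B0 ∧ 0 < n ∧
      (∀ r, i r ∈ A ↔ r ∈ Subgroup.zpowers (z ^ n)) ∧
      (∀ r, j r ∈ B ↔ r ∈ Subgroup.zpowers (z ^ n)) := by
  by_cases hinf : ∀ n : ℤ, z ^ n = 1 → n = 0
  · obtain ⟨n, hn, h1⟩ := star i hP hi z hz hinf hA0
    obtain ⟨m, hm, h2⟩ := star j hQ hj z hz hinf hB0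
    obtain ⟨A, hA, hA1, hA2⟩ := h1 m hm
    obtain ⟨B, hB, hB1, hB2⟩ := h2 n hn
    refine ⟨A, B, n * m, hA, hB, hA1, hB1, Nat.mul_pos hn hm, hA2, ?_⟩
    rw [mul_comm]
    exact hB2
  · push Not at hinf
    obtain ⟨n, hn, hn0⟩ := hinf
    have hfo : IsOfFinOrder z := isOfFinOrder_iff_zpow_eq_one.2 ⟨n, hn0, hn⟩
    have hRfin : Finite R := by
      rw [Subgroup.finite_iff_finite_and_finiteIndex (Subgroup.zpowers z)]
      exact ⟨hfo.finite_zpowers, hz⟩
    obtain ⟨A, hA, hA1, hA2⟩ := star0 i hP hi hA0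
    obtain ⟨B, hB, hB1, hB2⟩ := star0 j hQ hj hB0
    have h1 : Subgroup.zpowers (z ^ orderOf z) = ⊥ := by
      rw [pow_orderOf_eq_one, Subgroup.zpowers_one_eq_bot]
    refine ⟨A, B, orderOf z, hA, hB, hA1, hB1, hfo.orderOf_pos, fun r => ?_, fun r => ?_⟩
    · rw [h1, Subgroup.mem_bot]
      exact ⟨hA2 r, fun h => by rw [h, map_one]; exact A.one_mem⟩
    · rw [h1, Subgroup.mem_bot]
      exact ⟨hB2 r, fun h => by rw [h, map_one]; exact B.one_mem⟩

/-- finite quotients of the amalgamated product -/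
theorem exists_quot {A : Subgroup P} {B : Subgroup Q} (hA : NF A) (hB : NF B)
    (N : Subgroup R) (hNA : ∀ r, r ∈ N ↔ i r ∈ A) (hNB : ∀ r, r ∈ N ↔ j r ∈ B) :
    ∃ (W : Type (max w (max u v))) (_ : Group W) (_ : Finite W) (π : Amalg i j →* W),
      (∀ p, π (Amalg.inl i j p) = 1 → p ∈ A) ∧ ∀ q, π (Amalg.inr i j q) = 1 → q ∈ B := by
  have hAn := hA.1
  have hBn := hB.1
  have hAf := hA.2
  have hNeq : N = A.comap i := Subgroup.ext fun r => hNA r
  have hNn : N.Normal := by rw [hNeq]; infer_instance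
  have hNf : N.FiniteIndex := by
    rw [hNeq]
    refine ⟨?_⟩
    rw [Subgroup.index_comap]
    have h3 : (A.subgroupOf i.range).FiniteIndex := inferInstance
    exact h3.index_ne_zero
  obtain ⟨T, hT, ⟨HP⟩⟩ := exists_half i A N hA hNA
  obtain ⟨S, hS, ⟨HQ⟩⟩ := exists_half j B N hB hNB
  have h0 : ∀ s : S, Add A (fun _ => 0) := fun s a _ b _ => by simp
  have h0' : ∀ t : T, Add B (fun _ => 0) := fun s a _ b _ => by simp
  obtain ⟨Φ, hΦ1, hΦ2⟩ := exists_wr HP HQ (fun _ _ => 0) h0 (fun _ _ => 0) h0'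
    (fun _ _ _ _ => rfl)
  refine ⟨Equiv.Perm ((R ⧸ N) × T × S), inferInstance, inferInstance, Wr.toPerm.comp Φ, ?_, ?_⟩
  · intro p hp
    have h1 : (Φ (Amalg.inl i j p)).perm = 1 := hp
    rw [hΦ1] at h1
    have h2 := Equiv.congr_fun h1 (1, HP.t 1, HQ.t 1)
    have h3 : (HP.act p (1, HP.t 1)).1 = 1 := congrArg Prod.fst h2
    have h4 : (HP.act p (1, HP.t 1)).2 = HP.t 1 := congrArg (fun x => x.2.1) h2
    exact HP.mem_of_act p (1, HP.t 1) (Prod.ext h3 h4)
  · intro p hp
    have h1 : (Φ (Amalg.inr i j p)).perm = 1 := hp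
    rw [hΦ2] at h1
    have h2 := Equiv.congr_fun h1 (1, HP.t 1, HQ.t 1)
    have h3 : (HQ.act p (1, HQ.t 1)).1 = 1 := congrArg Prod.fst h2
    have h4 : (HQ.act p (1, HQ.t 1)).2 = HQ.t 1 := congrArg (fun x => x.2.2) h2
    exact HQ.mem_of_act p (1, HQ.t 1) (Prod.ext h3 h4)

/-- elements of the first factor -/
theorem ell (hP : VRC P) (hQ : VRC Q) (hi : Function.Injective i)
    (hj : Function.Injective j) (z : R) (hz : (Subgroup.zpowers z).FiniteIndex) (p : P) :
    VRet (Subgroup.zpowers (Amalg.inl i j p)) := by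
  by_cases hp : ∀ n : ℤ, p ^ n = 1 → n = 0
  · -- infinite order
    obtain ⟨A0, hA0, f, hf, hfp⟩ := exists_func hP p hp
    obtain ⟨B0, hB0, g, hg, hgz⟩ : ∃ B0 : Subgroup Q, NF B0 ∧ ∃ g : Q → ℤ, Add B0 g ∧
        ∀ m : ℤ, z ^ m ≠ 1 → j z ^ m ∈ B0 → g (j z ^ m) ≠ 0 := by
      by_cases hinf : ∀ n : ℤ, z ^ n = 1 → n = 0
      · obtain ⟨B0, hB0, g, hg, hgz⟩ := exists_func hQ (j z) (by
          intro n hn
          apply hinf
          apply hj
          rw [map_zpow, hn, map_one])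
        refine ⟨B0, hB0, g, hg, fun m hm1 hm2 => ?_⟩
        rw [hgz m hm2]
        rintro rfl
        exact hm1 (zpow_zero z)
      · push Not at hinf
        obtain ⟨n, hn, hn0⟩ := hinf
        have hfo : IsOfFinOrder z := isOfFinOrder_iff_zpow_eq_one.2 ⟨n, hn0, hn⟩
        have hRfin : Finite R := by
          rw [Subgroup.finite_iff_finite_and_finiteIndex (Subgroup.zpowers z)]
          exact ⟨hfo.finite_zpowers, hz⟩
        obtain ⟨B, hB, -, hB2⟩ := star0 j hQ hj (NF.top : NF (⊤ : Subgroup Q))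
        refine ⟨B, hB, fun _ => 0, fun a _ b _ => by simp, fun m hm1 hm2 => ?_⟩
        exact absurd (hB2 (z ^ m) (by rwa [map_zpow])) hm1
    obtain ⟨A, B, n, hA, hB, hAA, hBB, hn, hNA, hNB⟩ := exists_match i j hP hQ hi hj z hz hA0 hB0
    have hfA : Add A f := fun a ha b hb => hf a (hAA ha) b (hAA hb)
    have hgB : Add B g := fun a ha b hb => hg a (hBB ha) b (hBB hb)
    have hAn := hA.1
    have hBn := hB.1
    have hAf := hA.2
    set N := Subgroup.zpowers (z ^ n) with hN
    have hNeq : N = A.comap i := Subgroup.ext fun r => (hNA r).symm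
    have hNn : N.Normal := by rw [hNeq]; infer_instance
    have hNf : N.FiniteIndex := by
      rw [hNeq]
      refine ⟨?_⟩
      rw [Subgroup.index_comap]
      have h3 : (A.subgroupOf i.range).FiniteIndex := inferInstance
      exact h3.index_ne_zero
    obtain ⟨T, hT, ⟨HP⟩⟩ := exists_half i A N hA fun r => (hNA r).symm
    obtain ⟨S, hS, ⟨HQ⟩⟩ := exists_half j B N hB fun r => (hNB r).symm
    have hzA : i (z ^ n) ∈ A := (hNA _).2 (Subgroup.mem_zpowers _)
    have hzB : j (z ^ n) ∈ B := (hNB _).2 (Subgroup.mem_zpowers _)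
    -- the value at the base point
    obtain ⟨Φ, x0, hx0⟩ : ∃ Φ : Amalg i j →* Wr ((R ⧸ N) × T × S), ∃ x0, ∀ a ∈ A,
        (Φ (Amalg.inl i j a)).perm x0 = x0 ∧ (f a ≠ 0 → (Φ (Amalg.inl i j a)).lab x0 ≠ 0) := by
      have hσ : HP.σ (1, HP.t 1) ∈ A := by
        rw [Half.σ]
        refine A.mul_mem ?_ ?_
        · rw [hNA]
          exact (QuotientGroup.eq_one_iff _).1 (QuotientGroup.out_eq' _)
        · rw [HP.base]
          exact A.one_mem
      have hact : ∀ a ∈ A, HP.act a (1, HP.t 1) = (1, HP.t 1) := fun a ha => HP.act_of_mem a ha _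
      have hval : ∀ a ∈ A, f (HP.a a (1, HP.t 1)) = f a := by
        intro a ha
        rw [Half.a, hact a ha, hfA _ (A.inv_mem hσ) _ (A.mul_mem ha hσ), hfA _ ha _ hσ,
          hfA.inv _ hσ]
        ring
      by_cases hz1 : z ^ n = 1
      · -- finite edge group
        have h0' : ∀ t : T, Add B (fun _ => 0) := fun s a _ b _ => by simp
        obtain ⟨Φ, hΦ1, hΦ2⟩ := exists_wr HP HQ (fun _ => f) (fun _ => hfA) (fun _ _ => 0) h0' (by
          intro s t m hm
          rw [hN, hz1, Subgroup.zpowers_one_eq_bot, Subgroup.mem_bot] at hm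
          rw [hm, map_one, mul_one, inv_mul_cancel, hfA.one])
        refine ⟨Φ, (1, HP.t 1, HQ.t 1), fun a ha => ⟨?_, fun hne => ?_⟩⟩
        · rw [hΦ1]
          show ((HP.act a (1, HP.t 1)).1, (HP.act a (1, HP.t 1)).2, HQ.t 1) = _
          rw [hact a ha]
        · rw [hΦ1]
          show f (HP.a a (1, HP.t 1)) ≠ 0
          rwa [hval a ha]
      · have hcjP : ∀ t, (HP.τ t)⁻¹ * i (z ^ n) * HP.τ t ∈ A := by
          intro t
          have := hAn.conj_mem _ hzA (HP.τ t)⁻¹
          rwa [inv_inv] at this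
        have hcjQ : ∀ s, (HQ.τ s)⁻¹ * j (z ^ n) * HQ.τ s ∈ B := by
          intro t
          have := hBn.conj_mem _ hzB (HQ.τ t)⁻¹
          rwa [inv_inv] at this
        obtain ⟨Φ, hΦ1, hΦ2⟩ := exists_wr HP HQ
          (fun s a => f a * g ((HQ.τ s)⁻¹ * j (z ^ n) * HQ.τ s))
          (fun s a ha b hb => by simp only; rw [hfA a ha b hb]; ring)
          (fun t b => f ((HP.τ t)⁻¹ * i (z ^ n) * HP.τ t) * g b)
          (fun t a ha b hb => by simp only; rw [hgB a ha b hb]; ring) (by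
            rintro s t _ ⟨k, rfl⟩
            have e1 : (HP.τ t)⁻¹ * i ((z ^ n) ^ k) * HP.τ t
                = ((HP.τ t)⁻¹ * i (z ^ n) * HP.τ t) ^ k := by
              have := conj_zpow (i := k) (a := (HP.τ t)⁻¹) (b := i (z ^ n))
              rw [inv_inv] at this
              rw [this, map_zpow]
            have e2 : (HQ.τ s)⁻¹ * j ((z ^ n) ^ k) * HQ.τ s
                = ((HQ.τ s)⁻¹ * j (z ^ n) * HQ.τ s) ^ k := by
              have := conj_zpow (i := k) (a := (HQ.τ s)⁻¹) (b := j (z ^ n))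
              rw [inv_inv] at this
              rw [this, map_zpow]
            simp only
            rw [e1, e2, hfA.zpow _ (hcjP t), hgB.zpow _ (hcjQ s)]
            ring)
        refine ⟨Φ, (1, HP.t 1, HQ.t 1), fun a ha => ⟨?_, fun hne => ?_⟩⟩
        · rw [hΦ1]
          show ((HP.act a (1, HP.t 1)).1, (HP.act a (1, HP.t 1)).2, HQ.t 1) = _
          rw [hact a ha]
        · rw [hΦ1]
          show f (HP.a a (1, HP.t 1)) * g ((HQ.τ (HQ.t 1))⁻¹ * j (z ^ n) * HQ.τ (HQ.t 1)) ≠ 0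
          rw [hval a ha, HQ.base, inv_one, one_mul, mul_one]
          refine mul_ne_zero hne ?_
          have h5 := hgz n (by simpa using hz1) (by
            have := hBB hzB
            simpa using this)
          simpa using h5
    obtain ⟨M, hM, hMA⟩ := Subgroup.exists_pow_mem_of_index_ne_zero (H := A) hAf.index_ne_zero p
    have hM0 : 0 < M := by omega
    obtain ⟨h1, h2⟩ := hx0 _ hMA.2
    refine vret_of_wr Φ (Amalg.inl i j p) x0 M hM0 ?_ ?_
    · rw [← map_pow]; exact h1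
    · rw [← map_pow]
      apply h2
      have h3 := hfp M (by simpa using hAA hMA.2)
      rw [zpow_natCast] at h3
      rw [h3]
      exact_mod_cast hM0.ne'
  · -- finite order
    push Not at hp
    obtain ⟨n, hn, hn0⟩ := hp
    have hfo : IsOfFinOrder p := isOfFinOrder_iff_zpow_eq_one.2 ⟨n, hn0, hn⟩
    have : Finite (Subgroup.zpowers p) := hfo.finite_zpowers
    obtain ⟨A0, hA0, -, hA02⟩ := star0 (Subgroup.zpowers p).subtype hP
      (Subgroup.subtype_injective _) (NF.top : NF (⊤ : Subgroup P))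
    obtain ⟨A, B, n, hA, hB, hAA, hBB, hn, hNA, hNB⟩ := exists_match i j hP hQ hi hj z hz hA0
      (NF.top : NF (⊤ : Subgroup Q))
    obtain ⟨W, _, _, π, hπ, -⟩ := exists_quot i j hA hB (Subgroup.zpowers (z ^ n))
      (fun r => (hNA r).symm) (fun r => (hNB r).symm)
    refine vret_of_hom π _ (fun m hm => ?_) (vret_of_finite _)
    rw [← map_zpow, ← map_zpow] at hm
    have h1 := hAA (hπ _ hm)
    have h2 := hA02 ⟨p ^ m, Subgroup.zpow_mem_zpowers p m⟩ h1
    have h3 : p ^ m = 1 := congrArg Subtype.val h2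
    rw [← map_zpow, h3, map_one]

/-- exchanging the factors -/
theorem exists_swap : ∃ f : Amalg i j →* Amalg j i, (∀ q, f (Amalg.inr i j q) = Amalg.inl j i q) ∧
    Function.Injective f := by
  obtain ⟨f, hf1, hf2⟩ := Amalg.exists_lift i j (Amalg.inr j i) (Amalg.inl j i)
    (fun r => (Amalg.glue j i r).symm)
  obtain ⟨g, hg1, hg2⟩ := Amalg.exists_lift j i (Amalg.inr i j) (Amalg.inl i j)
    (fun r => (Amalg.glue i j r).symm)
  refine ⟨f, hf2, ?_⟩
  apply Function.LeftInverse.injective (g := g)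
  intro x
  induction x using Amalg.induct with
  | one => simp
  | left p x ih => rw [map_mul, map_mul, hf1, hg2, ih]
  | right p x ih => rw [map_mul, map_mul, hf2, hg1, ih]

theorem ellQ (hP : VRC P) (hQ : VRC Q) (hi : Function.Injective i)
    (hj : Function.Injective j) (z : R) (hz : (Subgroup.zpowers z).FiniteIndex) (q : Q) :
    VRet (Subgroup.zpowers (Amalg.inr i j q)) := by
  obtain ⟨f, hf, hinj⟩ := exists_swap i j
  refine vret_of_hom f _ (fun n hn => ?_) ?_
  · rw [← map_zpow] at hn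
    exact hinj (by rw [hn, map_one])
  · rw [hf]
    exact ell j i hQ hP hj hi z hz q

end

end Pool.Agent.H67VRC
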