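import Pool.Agent.H67VRC.Ell

set_option autoImplicit false

/-!
# Hyperbolic elements, and the main theorem
-/

namespace Pool.Agent.H67VRC

open Pool.Agent.H67LR SemidirectProduct

universe u v w

section letters

variable {P Q W : Type*} [Group P] [Group Q] [Group W] (Rb : Subgroup W) (πP : P →* W)
  (πQ : Q →* W)

/-- the free group word -/
def letters : W → List (P × Q) → List ((W ⧸ Rb) × Bool)
  | _, [] => []
  | x, (p, q) :: l => (QuotientGroup.mk x, true) :: (QuotientGroup.mk (x * πP p), false) ::
      letters (x * πP p * πQ q) l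

theorem letters_reduced (l : List (P × Q)) (hl : ∀ y ∈ l, πP y.1 ∉ Rb ∧ πQ y.2 ∉ Rb) :
    ∀ x : W, FreeGroup.IsReduced (letters Rb πP πQ x l) := by
  induction l with
  | nil =>
    intro x
    simp [letters]
  | cons y l ih =>
    intro x
    obtain ⟨p, q⟩ := y
    obtain ⟨h1, h2⟩ := hl (p, q) (by simp)
    have ih' := ih (fun y hy => hl y (by simp [hy])) (x * πP p * πQ q)
    have e1 : (QuotientGroup.mk x : W ⧸ Rb) ≠ QuotientGroup.mk (x * πP p) := by
      intro h
      rw [QuotientGroup.eq] at h
      apply h1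
      simpa using h
    rw [letters, FreeGroup.isReduced_cons_cons]
    refine ⟨fun h => absurd h e1, ?_⟩
    cases l with
    | nil => simp [letters]
    | cons y' l' =>
      obtain ⟨p', q'⟩ := y'
      rw [letters, FreeGroup.isReduced_cons_cons]
      refine ⟨fun h => ?_, ?_⟩
      · exfalso
        have h' : (QuotientGroup.mk (x * πP p) : W ⧸ Rb) = QuotientGroup.mk (x * πP p * πQ q) := h
        rw [QuotientGroup.eq, inv_mul_cancel_left] at h'
        exact h2 h'
      · rw [letters] at ih'
        exact ih'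

/-- the action on the free group -/
abbrev aW : W →* Equiv.Perm (W ⧸ Rb) := MulAction.toPermHom W (W ⧸ Rb)

/-- the first factor -/
def toG (x : W) : Ghat (aW Rb) :=
  inl (FreeGroup.of (QuotientGroup.mk 1)) * inr x * (inl (FreeGroup.of (QuotientGroup.mk 1)))⁻¹

theorem inr_inl (x y : W) : (inr x : Ghat (aW Rb)) * inl (FreeGroup.of (QuotientGroup.mk y))
    = inl (FreeGroup.of (QuotientGroup.mk (x * y))) * inr x := by
  have h := inl_aut (φ := (permAut (W ⧸ Rb)).comp (aW Rb)) x (FreeGroup.of (QuotientGroup.mk y))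
  have h2 : ((permAut (W ⧸ Rb)).comp (aW Rb)) x (FreeGroup.of (QuotientGroup.mk y))
      = FreeGroup.of (QuotientGroup.mk (x * y)) := by
    rw [MonoidHom.comp_apply, permAut_of]
    rfl
  rw [h2] at h
  rw [h, map_inv, inv_mul_cancel_right]

theorem toG_of_mem (x : W) (hx : x ∈ Rb) : toG Rb x = inr x := by
  rw [toG, mul_inv_eq_iff_eq_mul, inr_inl]
  congr 3
  rw [mul_one, QuotientGroup.eq, inv_one, one_mul]
  exact hx

theorem prod_eq (l : List (P × Q)) : ∀ x : W,
    (inr x : Ghat (aW Rb)) * (l.map fun y => toG Rb (πP y.1) * inr (πQ y.2)).prod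
      = inl (FreeGroup.mk (letters Rb πP πQ x l)) *
        inr (x * (l.map fun y => πP y.1 * πQ y.2).prod) := by
  induction l with
  | nil =>
    intro x
    simp [letters, FreeGroup.one_eq_mk.symm]
  | cons y l ih =>
    intro x
    obtain ⟨p, q⟩ := y
    have h1 : FreeGroup.mk (letters Rb πP πQ x ((p, q) :: l))
        = FreeGroup.of (QuotientGroup.mk x) * (FreeGroup.of (QuotientGroup.mk (x * πP p)))⁻¹
          * FreeGroup.mk (letters Rb πP πQ (x * πP p * πQ q) l) := by
      rw [letters, FreeGroup.of, FreeGroup.of, FreeGroup.inv_mk, FreeGroup.mul_mk,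
        FreeGroup.mul_mk]
      rfl
    rw [List.map_cons, List.prod_cons, List.map_cons, List.prod_cons, h1]
    have ih' := ih (x * πP p * πQ q)
    have e1 : (inr x : Ghat (aW Rb)) * (toG Rb (πP p) * inr (πQ q))
        = inl (FreeGroup.of (QuotientGroup.mk x) *
          (FreeGroup.of (QuotientGroup.mk (x * πP p)))⁻¹) * inr (x * πP p * πQ q) := by
      have a1 := inr_inl Rb x 1
      have a2 := inr_inl Rb (x * πP p) 1
      rw [mul_one] at a1 a2
      have a3 : (inr (x * πP p) : Ghat (aW Rb)) * (inl (FreeGroup.of (QuotientGroup.mk 1)))⁻¹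
          = (inl (FreeGroup.of (QuotientGroup.mk (x * πP p))))⁻¹ * inr (x * πP p) := by
        rw [mul_inv_eq_iff_eq_mul, mul_assoc, a2, inv_mul_cancel_left]
      calc (inr x : Ghat (aW Rb)) * (toG Rb (πP p) * inr (πQ q))
          = ((inr x : Ghat (aW Rb)) * inl (FreeGroup.of (QuotientGroup.mk 1))) *
            (inr (πP p) * (inl (FreeGroup.of (QuotientGroup.mk 1)))⁻¹) * inr (πQ q) := by
              rw [toG]; group
        _ = inl (FreeGroup.of (QuotientGroup.mk x)) * (inr (x * πP p) *
            (inl (FreeGroup.of (QuotientGroup.mk 1)))⁻¹) * inr (πQ q) := by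
              rw [a1, map_mul (inr : W →* Ghat (aW Rb)) x]; group
        _ = _ := by
              rw [a3, map_mul (inr : W →* Ghat (aW Rb)) (x * πP p)]
              rw [map_mul (inl : FreeGroup (W ⧸ Rb) →* Ghat (aW Rb)), map_inv]
              group
    rw [← mul_assoc (inr x), e1, mul_assoc, ih', ← mul_assoc,
      ← map_mul (inl : FreeGroup (W ⧸ Rb) →* Ghat (aW Rb))]
    congr 2
    simp only [mul_assoc]

theorem prod_ne_one (l : List (P × Q)) (hl : ∀ y ∈ l, πP y.1 ∉ Rb ∧ πQ y.2 ∉ Rb) (hne : l ≠ []) :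
    (l.map fun y => toG Rb (πP y.1) * inr (πQ y.2)).prod ≠ 1 := by
  classical
  intro h
  have h1 := prod_eq Rb πP πQ l 1
  rw [h, map_one, one_mul, one_mul] at h1
  have h2 := congrArg SemidirectProduct.left h1
  simp only [mul_left, left_inl, left_inr, map_one, mul_one, one_left] at h2
  have h3 := (letters_reduced Rb πP πQ l hl 1).reduce_eq
  have h4 : FreeGroup.reduce (letters Rb πP πQ 1 l) = [] := by
    have := congrArg FreeGroup.toWord h2.symm
    rwa [FreeGroup.toWord_mk, FreeGroup.toWord_one] at this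
  rw [h3] at h4
  cases l with
  | nil => exact hne rfl
  | cons y l => simp [letters] at h4

end letters

section

variable {P : Type u} {Q : Type v} {R : Type w} [Group P] [Group Q] [Group R] (i : R →* P)
  (j : R →* Q)

/-- the element of a list of syllables -/
def wd (l : List (P × Q)) : Amalg i j := (l.map fun y => Amalg.inl i j y.1 * Amalg.inr i j y.2).prod

theorem exists_avoid {P : Type*} [Group P] {R : Type*} [Group R] (i : R →* P) (hP : VRC P) (z : R)
    (hz : (Subgroup.zpowers z).FiniteIndex) (l : List P) (hl : ∀ x ∈ l, ∀ r, i r ≠ x) :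
    ∃ A0 : Subgroup P, NF A0 ∧ ∀ x ∈ l, ∀ r, i r * x ∉ A0 := by
  induction l with
  | nil => exact ⟨⊤, NF.top, by simp⟩
  | cons y l ih =>
    obtain ⟨A0, hA0, h1⟩ := ih (fun x hx => hl x (by simp [hx]))
    obtain ⟨M, hM, h2⟩ := sepR i hP z hz y (hl y (by simp))
    refine ⟨A0 ⊓ M, hA0.inf hM, fun x hx r hr => ?_⟩
    rcases List.mem_cons.1 hx with rfl | hx
    · exact h2 r hr.2
    · exact h1 x hx r hr.1

/-- cyclically reduced elements -/
theorem hyp (hP : VRC P) (hQ : VRC Q) (hi : Function.Injective i)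
    (hj : Function.Injective j) (z : R) (hz : (Subgroup.zpowers z).FiniteIndex)
    (l : List (P × Q)) (hne : l ≠ []) (hl : ∀ y ∈ l, (∀ r, i r ≠ y.1) ∧ ∀ r, j r ≠ y.2) :
    VRet (Subgroup.zpowers (wd i j l)) := by
  obtain ⟨A0, hA0, hA0l⟩ := exists_avoid i hP z hz (l.map Prod.fst) (by
    intro x hx r
    obtain ⟨y, hy, rfl⟩ := List.mem_map.1 hx
    exact (hl y hy).1 r)
  obtain ⟨B0, hB0, hB0l⟩ := exists_avoid j hQ z hz (l.map Prod.snd) (by
    intro x hx r
    obtain ⟨y, hy, rfl⟩ := List.mem_map.1 hx
    exact (hl y hy).2 r)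
  obtain ⟨A, B, n, hA, hB, hAA, hBB, hn, hNA, hNB⟩ := exists_match i j hP hQ hi hj z hz hA0 hB0
  obtain ⟨W, _, _, π, hπA, hπB⟩ := exists_quot i j hA hB (Subgroup.zpowers (z ^ n))
    (fun r => (hNA r).symm) (fun r => (hNB r).symm)
  let πP : P →* W := π.comp (Amalg.inl i j)
  let πQ : Q →* W := π.comp (Amalg.inr i j)
  let Rb : Subgroup W := (πP.comp i).range
  have hgood : ∀ y ∈ l, πP y.1 ∉ Rb ∧ πQ y.2 ∉ Rb := by
    intro y hy
    constructor
    · rintro ⟨r, hr⟩
      apply hA0l y.1 (List.mem_map.2 ⟨y, hy, rfl⟩) r⁻¹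
      apply hAA
      apply hπA
      have hr' : π (Amalg.inl i j (i r)) = π (Amalg.inl i j y.1) := hr
      rw [map_mul, map_mul, ← hr', ← map_mul, ← map_mul, ← map_mul, inv_mul_cancel, map_one,
        map_one, map_one]
    · rintro ⟨r, hr⟩
      apply hB0l y.2 (List.mem_map.2 ⟨y, hy, rfl⟩) r⁻¹
      apply hBB
      apply hπB
      have hr' : π (Amalg.inl i j (i r)) = π (Amalg.inr i j y.2) := hr
      rw [Amalg.glue] at hr'
      rw [map_mul, map_mul, ← hr', ← map_mul, ← map_mul, ← map_mul, inv_mul_cancel, map_one,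
        map_one, map_one]
  obtain ⟨Φ, hΦ1, hΦ2⟩ := Amalg.exists_lift i j
    (W := Ghat (aW Rb))
    ((MulAut.conj (inl (FreeGroup.of (QuotientGroup.mk 1)) : Ghat (aW Rb))).toMonoidHom.comp
      (inr.comp πP)) (inr.comp πQ) (by
      intro r
      have h1 : toG Rb (πP (i r)) = inr (πP (i r)) := toG_of_mem Rb _ ⟨r, rfl⟩
      have h2 : πP (i r) = πQ (j r) := by
        show π _ = π _
        rw [Amalg.glue]
      show toG Rb (πP (i r)) = inr (πQ (j r))
      rw [h1, h2])
  have hΦl : ∀ l : List (P × Q), Φ (wd i j l)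
      = (l.map fun y => toG Rb (πP y.1) * inr (πQ y.2)).prod := by
    intro l
    rw [wd, map_list_prod, List.map_map]
    congr 1
    apply List.map_congr_left
    intro y _
    show Φ (Amalg.inl i j y.1 * Amalg.inr i j y.2) = _
    rw [map_mul, hΦ1, hΦ2]
    rfl
  have hpow : ∀ m : ℕ, 0 < m → Φ (wd i j l) ^ m ≠ 1 := by
    intro m hm
    have e : wd i j l ^ m = wd i j (List.replicate m l).flatten := by
      rw [wd, wd, List.map_flatten, List.prod_flatten, List.map_replicate, List.map_replicate,
        List.prod_replicate]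
    rw [← map_pow, e, hΦl]
    apply prod_ne_one
    · intro y hy
      obtain ⟨l', hl', hy'⟩ := List.mem_flatten.1 hy
      rw [List.eq_of_mem_replicate hl'] at hy'
      exact hgood y hy'
    · intro h
      rw [List.flatten_eq_nil_iff] at h
      exact hne (h l (List.mem_replicate.2 ⟨hm.ne', rfl⟩))
  refine vret_of_hom Φ _ (fun m hm => ?_) (ghat_LR _ ?_)
  · have : m = 0 := by
      by_contra h0
      apply hpow m.natAbs (Int.natAbs_pos.2 h0)
      rcases m.natAbs_eq with h | h
      · rw [h, zpow_natCast] at hm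
        exact hm
      · rw [h, zpow_neg, zpow_natCast, inv_eq_one] at hm
        exact hm
    rw [this, zpow_zero]
  · exact ⟨{Φ (wd i j l)}, by rw [Finset.coe_singleton, ← Subgroup.zpowers_eq_closure]⟩

theorem wd_append (l m : List (P × Q)) : wd i j (l ++ m) = wd i j l * wd i j m := by
  rw [wd, wd, wd, List.map_append, List.prod_append]

/-- every list of syllables -/
theorem vret_wd (hP : VRC P) (hQ : VRC Q) (hi : Function.Injective i)
    (hj : Function.Injective j) (z : R) (hz : (Subgroup.zpowers z).FiniteIndex) (n : ℕ) :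
    ∀ l : List (P × Q), l.length = n → VRet (Subgroup.zpowers (wd i j l)) := by
  induction n using Nat.strong_induction_on with
  | _ n ih =>
    intro l hn
    by_cases hl0 : l = []
    · subst hl0
      have := ell i j hP hQ hi hj z hz 1
      rw [map_one] at this
      exact this
    by_cases hl : ∀ y ∈ l, (∀ r, i r ≠ y.1) ∧ ∀ r, j r ≠ y.2
    · exact hyp i j hP hQ hi hj z hz l hl0 hl
    · push Not at hl
      obtain ⟨y, hy, hy2⟩ := hl
      obtain ⟨l1, l2, rfl⟩ := List.append_of_mem hy
      obtain ⟨p, q⟩ := y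
      -- rotate
      apply vret_conj (wd i j l1)⁻¹
      have e : (wd i j l1)⁻¹ * wd i j (l1 ++ (p, q) :: l2) * (wd i j l1)⁻¹⁻¹
          = Amalg.inl i j p * Amalg.inr i j q * wd i j (l2 ++ l1) := by
        rw [wd_append, inv_inv, inv_mul_cancel_left, wd_append]
        rw [wd, List.map_cons, List.prod_cons, mul_assoc, ← wd]
      rw [e]
      have hlen : (l2 ++ l1).length < n := by
        rw [← hn]
        simp
        omega
      generalize hm : l2 ++ l1 = m at *
      by_cases hp : ∀ r, i r ≠ p
      · -- then `q` is in the image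
        obtain ⟨r, hr⟩ := hy2 hp
        simp only at hr
        subst hr
        rw [← Amalg.glue, ← map_mul]
        cases m with
        | nil =>
          have e2 : wd i j ([] : List (P × Q)) = 1 := by simp [wd]
          rw [e2, mul_one]
          exact ell i j hP hQ hi hj z hz _
        | cons y m =>
          obtain ⟨p', q'⟩ := y
          have e2 : Amalg.inl i j (p * i r) * wd i j ((p', q') :: m)
              = wd i j ((p * i r * p', q') :: m) := by
            rw [wd, wd, List.map_cons, List.prod_cons, List.map_cons, List.prod_cons]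
            simp only [map_mul, mul_assoc]
          rw [e2]
          exact ih _ hlen _ (by simp)
      · push Not at hp
        obtain ⟨r, rfl⟩ := hp
        rw [Amalg.glue, ← map_mul]
        rcases List.eq_nil_or_concat m with rfl | ⟨m', ⟨p', q'⟩, rfl⟩
        · have e2 : wd i j ([] : List (P × Q)) = 1 := by simp [wd]
          rw [e2, mul_one]
          exact ellQ i j hP hQ hi hj z hz _
        · rw [List.concat_eq_append] at hlen ⊢
          apply vret_conj (Amalg.inr i j (j r * q))⁻¹
          have e2 : (Amalg.inr i j (j r * q))⁻¹ *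
              (Amalg.inr i j (j r * q) * wd i j (m' ++ [(p', q')])) *
              (Amalg.inr i j (j r * q))⁻¹⁻¹ = wd i j (m' ++ [(p', q' * (j r * q))]) := by
            rw [inv_inv, inv_mul_cancel_left, wd_append, wd_append, wd, wd, wd]
            simp only [List.map_cons, List.map_nil, List.prod_cons, List.prod_nil, mul_one,
              map_mul, mul_assoc]
          rw [e2]
          exact ih _ hlen _ (by simp)

theorem exists_wd (x : Amalg i j) : ∃ l : List (P × Q), x = wd i j l := by
  induction x using Amalg.induct with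
  | one => exact ⟨[], by simp [wd]⟩
  | left p x ih =>
    obtain ⟨l, rfl⟩ := ih
    refine ⟨(p, 1) :: l, ?_⟩
    rw [wd, wd, List.map_cons, List.prod_cons, map_one, mul_one]
  | right q x ih =>
    obtain ⟨l, rfl⟩ := ih
    refine ⟨(1, q) :: l, ?_⟩
    rw [wd, wd, List.map_cons, List.prod_cons, map_one, one_mul]

/-- **Main theorem.** -/
theorem amalg_vrc (hP : VRC P) (hQ : VRC Q) (hi : Function.Injective i)
    (hj : Function.Injective j) (z : R) (hz : (Subgroup.zpowers z).FiniteIndex) :
    VRC (Amalg i j) := by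
  intro x
  obtain ⟨l, rfl⟩ := exists_wd i j x
  exact vret_wd i j hP hQ hi hj z hz _ l rfl

end

end Pool.Agent.H67VRC
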