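import Pool.Agent.H67VRC.Basic

set_option autoImplicit false

/-!
# Separability in groups with (VRC)
-/

namespace Pool.Agent.H67VRC

open Pool.Agent.H67LR

/-- normal subgroups of finite index -/
def NF {P : Type*} [Group P] (M : Subgroup P) : Prop := M.Normal ∧ M.FiniteIndex

variable {P : Type*} [Group P]

theorem NF.inf {A B : Subgroup P} (hA : NF A) (hB : NF B) : NF (A ⊓ B) := by
  obtain ⟨h1, h2⟩ := hA
  obtain ⟨h3, h4⟩ := hB
  exact ⟨inferInstance, inferInstance⟩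

theorem NF.iInf {ι : Type*} [Finite ι] {A : ι → Subgroup P} (hA : ∀ i, NF (A i)) :
    NF (⨅ i, A i) := by
  have h1 : ∀ i, (A i).Normal := fun i => (hA i).1
  exact ⟨Subgroup.normal_iInf_normal h1, Subgroup.finiteIndex_iInf fun i => (hA i).2⟩

theorem NF.top : NF (⊤ : Subgroup P) := ⟨inferInstance, inferInstance⟩

theorem NF.core {K : Subgroup P} (hK : K.FiniteIndex) : NF K.normalCore :=
  ⟨inferInstance, inferInstance⟩

theorem cyc_fi (g : P) (n : ℕ) (hn : 0 < n) :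
    ((Subgroup.zpowers (g ^ n)).subgroupOf (Subgroup.zpowers g)).FiniteIndex := by
  have : NeZero n := ⟨hn.ne'⟩
  have hfin : Finite (Subgroup.zpowers g ⧸
      ((Subgroup.zpowers (g ^ n)).subgroupOf (Subgroup.zpowers g))) := by
    refine Finite.of_surjective (α := Fin n) (fun i => QuotientGroup.mk
      (⟨g ^ (i : ℕ), Subgroup.npow_mem_zpowers g i⟩ : Subgroup.zpowers g)) ?_
    intro c
    induction c using QuotientGroup.induction_on with
    | H c =>
      obtain ⟨x, ⟨k, rfl⟩⟩ := c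
      refine ⟨⟨(k % n).toNat, ?_⟩, ?_⟩
      · have h1 : 0 ≤ k % n := Int.emod_nonneg _ (by exact_mod_cast hn.ne')
        have h2 : k % n < n := Int.emod_lt_of_pos _ (by exact_mod_cast hn)
        omega
      · rw [QuotientGroup.eq, Subgroup.mem_subgroupOf]
        refine ⟨k / n, ?_⟩
        show (g ^ n) ^ (k / (n : ℤ)) = (g ^ (k % n).toNat)⁻¹ * g ^ k
        have h1 : 0 ≤ k % n := Int.emod_nonneg _ (by exact_mod_cast hn.ne')
        rw [← zpow_natCast g (k % n).toNat, Int.toNat_of_nonneg h1, ← zpow_natCast g n, ← zpow_mul,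
          ← zpow_neg, ← zpow_add]
        congr 1
        have := Int.emod_add_mul_ediv k n
        linarith
  exact Subgroup.finiteIndex_of_finite_quotient

/-- preimage of a finite-index subgroup under a partial homomorphism -/
theorem pre_fi {K : Subgroup P} (hK : K.FiniteIndex) {G : Type*} [Group G] (ρ : K →* G)
    {C S : Subgroup G} (hC : ∀ k, ρ k ∈ C) (hS : (S.subgroupOf C).FiniteIndex) :
    ((S.comap ρ).map K.subtype).FiniteIndex := by
  refine ⟨?_⟩
  rw [Subgroup.index_map_subtype]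
  refine mul_ne_zero ?_ hK.index_ne_zero
  rw [Subgroup.index_comap]
  have h1 : ρ.range ≤ C := by
    rintro _ ⟨k, rfl⟩
    exact hC k
  intro h0
  have h2 : S.relIndex C = 0 := Subgroup.relIndex_eq_zero_of_le_right h1 h0
  exact hS.index_ne_zero h2

theorem mem_pre {K : Subgroup P} {G : Type*} [Group G] (ρ : K →* G) (S : Subgroup G) (x : P) :
    x ∈ (S.comap ρ).map K.subtype ↔ ∃ h : x ∈ K, ρ ⟨x, h⟩ ∈ S := by
  constructor
  · rintro ⟨⟨y, hy⟩, h, rfl⟩
    exact ⟨hy, h⟩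
  · rintro ⟨h, h'⟩
    exact ⟨⟨x, h⟩, h', rfl⟩

/-- groups with (VRC) are residually finite -/
theorem resfin (hP : VRC P) (g : P) (hg : g ≠ 1) : ∃ M : Subgroup P, NF M ∧ g ∉ M := by
  obtain ⟨K, hK, hHK, ρ, h1, h2⟩ := hP g
  obtain ⟨n, hn, hgn⟩ : ∃ n : ℕ, 0 < n ∧ g ∉ Subgroup.zpowers (g ^ n) := by
    by_cases h0 : orderOf g = 0
    · refine ⟨2, by norm_num, ?_⟩
      rintro ⟨k, hk⟩
      have h3 : g ^ (2 * k) = g ^ (1 : ℤ) := by
        rw [zpow_one, zpow_mul, zpow_ofNat]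
        exact hk
      have h4 : ¬ IsOfFinOrder g := by rwa [← orderOf_eq_zero_iff]
      have h5 := (injective_zpow_iff_not_isOfFinOrder.2 h4) h3
      omega
    · refine ⟨orderOf g, Nat.pos_of_ne_zero h0, ?_⟩
      rw [pow_orderOf_eq_one, Subgroup.zpowers_one_eq_bot, Subgroup.mem_bot]
      exact hg
  have h3 := pre_fi hK ρ h1 (cyc_fi g n hn)
  refine ⟨_, NF.core h3, fun h => ?_⟩
  have h4 := Subgroup.normalCore_le _ h
  rw [mem_pre] at h4
  obtain ⟨h5, h6⟩ := h4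
  rw [h2 g h5 (Subgroup.mem_zpowers g)] at h6
  exact hgn h6

/-- cyclic subgroups of groups with (VRC) are separable -/
theorem sepZ (hP : VRC P) (g x : P) (hx : x ∉ Subgroup.zpowers g) :
    ∃ M : Subgroup P, NF M ∧ ∀ n : ℤ, g ^ n * x ∉ M := by
  obtain ⟨K, hK, hHK, ρ, h1, h2⟩ := hP g
  have hgK : ∀ n : ℤ, g ^ n ∈ K := fun n => hHK (Subgroup.zpow_mem_zpowers g n)
  by_cases hxK : x ∈ K
  · have hy : (ρ ⟨x, hxK⟩)⁻¹ * x ≠ 1 := by
      intro h
      rw [inv_mul_eq_one] at h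
      exact hx (h ▸ h1 _)
    obtain ⟨M0, hM0, hyM0⟩ := resfin hP _ hy
    have := hM0.2
    have h3 : ((M0.comap ρ).map K.subtype).FiniteIndex :=
      pre_fi hK ρ (C := ⊤) (fun _ => trivial) inferInstance
    refine ⟨((M0.comap ρ).map K.subtype).normalCore ⊓ M0, (NF.core h3).inf hM0, ?_⟩
    rintro n ⟨hn1, hn2⟩
    have hn3 := Subgroup.normalCore_le _ hn1
    rw [mem_pre] at hn3
    obtain ⟨hn4, hn5⟩ := hn3
    have e : ρ ⟨g ^ n * x, hn4⟩ = g ^ n * ρ ⟨x, hxK⟩ := by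
      have : (⟨g ^ n * x, hn4⟩ : K) = ⟨g ^ n, hgK n⟩ * ⟨x, hxK⟩ := rfl
      rw [this, map_mul, h2 _ _ (Subgroup.zpow_mem_zpowers g n)]
    rw [e] at hn5
    apply hyM0
    have := M0.mul_mem (M0.inv_mem hn5) hn2
    have e2 : (g ^ n * ρ ⟨x, hxK⟩)⁻¹ * (g ^ n * x) = (ρ ⟨x, hxK⟩)⁻¹ * x := by group
    rwa [e2] at this
  · refine ⟨K.normalCore, NF.core hK, fun n hn => hxK ?_⟩
    have h3 := K.mul_mem (K.inv_mem (hgK n)) (Subgroup.normalCore_le _ hn)
    rwa [inv_mul_cancel_left] at h3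

variable {R : Type*} [Group R] (i : R →* P)

/-- the virtually cyclic subgroup `i(R)` is separable -/
theorem sepR (hP : VRC P) (z : R) (hz : (Subgroup.zpowers z).FiniteIndex) (x : P)
    (hx : ∀ r, i r ≠ x) : ∃ M : Subgroup P, NF M ∧ ∀ r, i r * x ∉ M := by
  have h1 : ∀ c : R ⧸ Subgroup.zpowers z, ∃ M : Subgroup P, NF M ∧
      ∀ n : ℤ, i z ^ n * ((i c.out)⁻¹ * x) ∉ M := by
    intro c
    apply sepZ hP
    rintro ⟨k, hk⟩
    apply hx (c.out * z ^ k)
    simp only at hk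
    rw [map_mul, map_zpow, hk, mul_inv_cancel_left]
  choose M hM hM2 using h1
  have : Finite (R ⧸ Subgroup.zpowers z) := inferInstance
  refine ⟨⨅ c, M c, NF.iInf hM, fun r hr => ?_⟩
  have h2 := (Subgroup.mem_iInf.1 hr) (QuotientGroup.mk r⁻¹)
  obtain ⟨⟨_, ⟨k, rfl⟩⟩, h3⟩ := QuotientGroup.mk_out_eq_mul (Subgroup.zpowers z) r⁻¹
  apply hM2 (QuotientGroup.mk r⁻¹) k
  rw [h3]
  have e : i z ^ k * ((i (r⁻¹ * z ^ k))⁻¹ * x) = i r * x := by
    rw [map_mul, map_zpow, map_inv]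
    group
  rw [e]
  exact h2

theorem sepZR (hP : VRC P) (hi : Function.Injective i) (z : R)
    (hz : (Subgroup.zpowers z).FiniteIndex) :
    ∃ M : Subgroup P, NF M ∧ ∀ r, i r ∈ M → r ∈ Subgroup.zpowers z := by
  have h1 : ∀ c : R ⧸ Subgroup.zpowers z, ∃ M : Subgroup P, NF M ∧
      (c.out ∉ Subgroup.zpowers z → ∀ n : ℤ, i z ^ n * i c.out ∉ M) := by
    intro c
    by_cases hc : c.out ∈ Subgroup.zpowers z
    · exact ⟨⊤, NF.top, fun h => absurd hc h⟩
    · obtain ⟨M, hM, hM2⟩ := sepZ hP (i z) (i c.out) (by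
        rintro ⟨k, hk⟩
        apply hc
        refine ⟨k, hi ?_⟩
        simpa using hk)
      exact ⟨M, hM, fun _ => hM2⟩
  choose M hM hM2 using h1
  have : Finite (R ⧸ Subgroup.zpowers z) := inferInstance
  refine ⟨⨅ c, M c, NF.iInf hM, fun r hr => ?_⟩
  have h2 := (Subgroup.mem_iInf.1 hr) (QuotientGroup.mk r)
  obtain ⟨⟨_, ⟨k, rfl⟩⟩, h3⟩ := QuotientGroup.mk_out_eq_mul (Subgroup.zpowers z) r
  by_contra hcon
  have hne : (QuotientGroup.mk r : R ⧸ Subgroup.zpowers z).out ∉ Subgroup.zpowers z := by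
    rw [h3]
    intro h4
    apply hcon
    have := (Subgroup.zpowers z).mul_mem h4
      ((Subgroup.zpowers z).inv_mem (Subgroup.zpow_mem_zpowers z k))
    rwa [mul_inv_cancel_right] at this
  apply hM2 _ hne (-k)
  rw [h3]
  have e : i z ^ (-k) * i (r * z ^ k) = i z ^ (-k) * i r * (i z ^ (-k))⁻¹ := by
    rw [map_mul, map_zpow]
    group
  rw [e]
  exact (hM _).1.conj_mem _ h2 _

/-- finite edge group -/
theorem star0 (hP : VRC P) (hi : Function.Injective i) [Finite R] {A0 : Subgroup P} (hA0 : NF A0) :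
    ∃ A : Subgroup P, NF A ∧ A ≤ A0 ∧ ∀ r, i r ∈ A → r = 1 := by
  have h1 : ∀ r : R, ∃ M : Subgroup P, NF M ∧ (r ≠ 1 → i r ∉ M) := by
    intro r
    by_cases hr : r = 1
    · exact ⟨⊤, NF.top, fun h => absurd hr h⟩
    · obtain ⟨M, hM, hM2⟩ := resfin hP (i r) (by
        intro h
        exact hr (hi (by rw [h, map_one])))
      exact ⟨M, hM, fun _ => hM2⟩
  choose M hM hM2 using h1
  refine ⟨(⨅ r, M r) ⊓ A0, (NF.iInf hM).inf hA0, inf_le_right, fun r hr => ?_⟩
  by_contra hcon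
  exact hM2 r hcon ((Subgroup.mem_iInf.1 hr.1) r)

/-- infinite virtually cyclic edge group -/
theorem star (hP : VRC P) (hi : Function.Injective i) (z : R)
    (hz : (Subgroup.zpowers z).FiniteIndex) (hinf : ∀ n : ℤ, z ^ n = 1 → n = 0)
    {A0 : Subgroup P} (hA0 : NF A0) :
    ∃ n : ℕ, 0 < n ∧ ∀ k : ℕ, 0 < k → ∃ A : Subgroup P, NF A ∧ A ≤ A0 ∧
      ∀ r, i r ∈ A ↔ r ∈ Subgroup.zpowers (z ^ (n * k)) := by
  obtain ⟨A1, hA1, hA1z⟩ := sepZR i hP hi z hz
  obtain ⟨K, hK, hHK, ρ, h1, h2⟩ := hP (i z)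
  have hK0 : NF (K.normalCore ⊓ A0 ⊓ A1) := ((NF.core hK).inf hA0).inf hA1
  set K0 := K.normalCore ⊓ A0 ⊓ A1 with hK0def
  have hzinj : ∀ a b : ℤ, i z ^ a = i z ^ b → a = b := by
    intro a b hab
    have h3 : z ^ a = z ^ b := hi (by simpa using hab)
    have h4 : z ^ (a - b) = 1 := by rw [zpow_sub, h3, mul_inv_cancel]
    have := hinf _ h4
    omega
  -- the exponent `n`
  obtain ⟨n, hn, hn2⟩ : ∃ n : ℕ, 0 < n ∧ ∀ m : ℤ, i (z ^ m) ∈ K0 ↔ (n : ℤ) ∣ m := by
    let S : AddSubgroup ℤ :=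
      { carrier := {m | i (z ^ m) ∈ K0}
        zero_mem' := by simp [K0.one_mem]
        add_mem' := by
          intro a b ha hb
          show i (z ^ (a + b)) ∈ K0
          rw [zpow_add, map_mul]
          exact K0.mul_mem ha hb
        neg_mem' := by
          intro a ha
          show i (z ^ (-a)) ∈ K0
          rw [zpow_neg, map_inv]
          exact K0.inv_mem ha }
    obtain ⟨a, ha⟩ := Int.subgroup_cyclic S
    have hS : ∀ m : ℤ, i (z ^ m) ∈ K0 ↔ a ∣ m := by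
      intro m
      have h3 : m ∈ S ↔ a ∣ m := by
        rw [ha, AddSubgroup.mem_closure_singleton]
        constructor
        · rintro ⟨c, rfl⟩
          exact ⟨c, by simp [mul_comm]⟩
        · rintro ⟨c, rfl⟩
          exact ⟨c, by simp [mul_comm]⟩
      exact h3
    have ha0 : a ≠ 0 := by
      intro h0
      obtain ⟨m, hm, hm2⟩ := Subgroup.exists_pow_mem_of_index_ne_zero
        (H := K0) hK0.2.index_ne_zero (i z)
      have h3 := (hS m).1 (by simpa using hm2.2)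
      rw [h0, zero_dvd_iff] at h3
      omega
    refine ⟨a.natAbs, Int.natAbs_pos.2 ha0, fun m => ?_⟩
    rw [hS, Int.natAbs_dvd]
  refine ⟨n, hn, fun k hk => ?_⟩
  have hKmem : ∀ p : P, ∀ x ∈ K0, p * x * p⁻¹ ∈ K := by
    intro p x hx
    exact Subgroup.normalCore_le _ (hK0.1.conj_mem x hx p).1.1
  have hzn : i z ^ n ∈ K0 := by
    have := (hn2 n).2 dvd_rfl
    simpa using this
  have he : ∀ p : P, ∃ e : ℤ, i z ^ e = ρ ⟨p * i z ^ n * p⁻¹, hKmem p _ hzn⟩ := fun p => h1 _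
  choose e he using he
  -- the gcd
  obtain ⟨d, hd⟩ := Int.subgroup_cyclic (AddSubgroup.closure (Set.range e))
  have hmemd : ∀ m : ℤ, m ∈ AddSubgroup.closure (Set.range e) ↔ d ∣ m := by
    intro m
    rw [hd, AddSubgroup.mem_closure_singleton]
    constructor
    · rintro ⟨c, rfl⟩
      exact ⟨c, by simp [mul_comm]⟩
    · rintro ⟨c, rfl⟩
      exact ⟨c, by simp [mul_comm]⟩
  have hde : ∀ p, d ∣ e p := fun p => (hmemd _).1 (AddSubgroup.subset_closure ⟨p, rfl⟩)
  have he1 : e 1 = n := by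
    apply hzinj
    rw [he]
    have h3 : (⟨1 * i z ^ n * 1⁻¹, hKmem 1 _ hzn⟩ : K) = ⟨i z ^ n, by
        have := hKmem 1 _ hzn
        simpa using this⟩ := Subtype.ext (by simp)
    rw [h3, h2 _ _ ⟨n, by simp⟩, zpow_natCast]
  have hd0 : d ≠ 0 := by
    intro h0
    have := hde 1
    rw [h0, zero_dvd_iff, he1] at this
    omega
  have hgcd : ∀ j : ℤ, (∀ p, d * k ∣ e p * j) ↔ (k : ℤ) ∣ j := by
    intro j
    constructor
    · intro h
      let T : AddSubgroup ℤ :=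
        { carrier := {x | d * k ∣ x * j}
          zero_mem' := by simp
          add_mem' := by
            intro a b ha hb
            show d * k ∣ (a + b) * j
            rw [add_mul]
            exact dvd_add ha hb
          neg_mem' := by
            intro a ha
            show d * k ∣ (-a) * j
            rw [neg_mul]
            exact (dvd_neg).2 ha }
      have hT : AddSubgroup.closure (Set.range e) ≤ T := by
        rw [AddSubgroup.closure_le]
        rintro _ ⟨p, rfl⟩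
        exact h p
      have h3 : d * k ∣ d * j := hT ((hmemd d).2 dvd_rfl)
      exact Int.dvd_of_mul_dvd_mul_left hd0 h3
    · intro h p
      exact mul_dvd_mul (hde p) h
  -- the subgroup
  have hdk : 0 < d.natAbs * k := Nat.mul_pos (Int.natAbs_pos.2 hd0) hk
  have hLfi := pre_fi hK ρ h1 (cyc_fi (i z) (d.natAbs * k) hdk)
  refine ⟨((Subgroup.zpowers (i z ^ (d.natAbs * k))).comap ρ |>.map K.subtype).normalCore ⊓ K0,
    (NF.core hLfi).inf hK0, ?_, ?_⟩
  · intro x hx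
    exact hx.2.1.2
  · intro r
    have hzmem : ∀ x : ℤ, i z ^ x ∈ Subgroup.zpowers (i z ^ (d.natAbs * k)) ↔ d * k ∣ x := by
      intro x
      constructor
      · rintro ⟨c, hc⟩
        have h3 : i z ^ (((d.natAbs * k : ℕ) : ℤ) * c) = i z ^ x := by
          rw [zpow_mul, zpow_natCast]
          exact hc
        have h4 := hzinj _ _ h3
        rw [← h4]
        have h5 : d * k ∣ ((d.natAbs * k : ℕ) : ℤ) := by
          push_cast
          exact mul_dvd_mul ((dvd_abs d d).2 dvd_rfl) dvd_rfl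
        exact h5.mul_right c
      · intro h
        have h5 : ((d.natAbs * k : ℕ) : ℤ) ∣ d * k := by
          push_cast
          exact mul_dvd_mul ((abs_dvd d d).2 dvd_rfl) dvd_rfl
        obtain ⟨c, rfl⟩ := h5.trans h
        refine ⟨c, ?_⟩
        show (i z ^ (d.natAbs * k)) ^ c = _
        rw [zpow_mul, zpow_natCast]
    constructor
    · rintro ⟨hr1, hr2⟩
      obtain ⟨m, rfl⟩ := hA1z r hr2.2
      simp only at hr1 hr2 ⊢
      obtain ⟨j, rfl⟩ := (hn2 m).1 hr2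
      have h3 : ∀ p, d * k ∣ e p * j := by
        intro p
        have h4 := hr1 p
        rw [mem_pre] at h4
        obtain ⟨h5, h6⟩ := h4
        have h7 : (⟨p * i (z ^ ((n : ℤ) * j)) * p⁻¹, h5⟩ : K)
            = ⟨p * i z ^ n * p⁻¹, hKmem p _ hzn⟩ ^ j := by
          apply Subtype.ext
          show p * i (z ^ ((n : ℤ) * j)) * p⁻¹ = (p * i z ^ n * p⁻¹) ^ j
          rw [conj_zpow, map_zpow, zpow_mul, zpow_natCast]
        rw [h7, map_zpow, ← he, ← zpow_mul] at h6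
        exact (hzmem _).1 h6
      obtain ⟨c, rfl⟩ := (hgcd j).1 h3
      refine ⟨c, ?_⟩
      show (z ^ (n * k)) ^ c = z ^ ((n : ℤ) * (k * c))
      rw [← mul_assoc, zpow_mul]
      congr 1
      exact_mod_cast (zpow_natCast z (n * k)).symm
    · rintro ⟨c, rfl⟩
      have e0 : (z ^ (n * k)) ^ c = z ^ ((n : ℤ) * (k * c)) := by
        rw [← mul_assoc, zpow_mul]
        congr 1
        exact_mod_cast (zpow_natCast z (n * k)).symm
      simp only
      rw [e0]
      refine ⟨?_, (hn2 _).2 ⟨_, rfl⟩⟩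
      intro p
      rw [mem_pre]
      have h5 : p * i (z ^ ((n : ℤ) * (k * c))) * p⁻¹ ∈ K :=
        hKmem p _ ((hn2 _).2 ⟨_, rfl⟩)
      refine ⟨h5, ?_⟩
      have h7 : (⟨p * i (z ^ ((n : ℤ) * (k * c))) * p⁻¹, h5⟩ : K)
          = ⟨p * i z ^ n * p⁻¹, hKmem p _ hzn⟩ ^ ((k : ℤ) * c) := by
        apply Subtype.ext
        show p * i (z ^ ((n : ℤ) * (k * c))) * p⁻¹ = (p * i z ^ n * p⁻¹) ^ ((k : ℤ) * c)
        rw [conj_zpow, map_zpow, zpow_mul, zpow_natCast]
      rw [h7, map_zpow, ← he, ← zpow_mul]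
      exact (hzmem _).2 ((hgcd _).2 ⟨c, rfl⟩ p)

end Pool.Agent.H67VRC
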